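import Pool.Agent.Q263.PL.Cls
import Pool.Agent.TH464.PO.Gen

set_option autoImplicit false

/-!
# The Poisson law along a finite set of integers
-/

namespace Pool.Agent.Q263.PL

open Finset Filter Pool.Agent.H373R2.T7 Pool.Agent.W123.RP Pool.Agent.W123.RU Pool.Agent.TH464.PO
open Pool.Agent.Q236.CP Pool.Agent.Q236.ML

open Classical in
/-- the elements of `Om` which are congruent to `a` modulo all primes `≤ w` -/
noncomputable def cl (w : ℕ) (Om : Finset ℕ) (a : ℕ) : Finset ℕ :=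
  Om.filter (fun n => ∀ p ∈ pz w, n % p = a % p)

lemma cl_eq (w : ℕ) (Om : Finset ℕ) (a : ℕ) (ha : a < Mw w) :
    cl w Om a = Om.filter (fun n => n % Mw w = a) := by
  classical
  unfold cl
  apply filter_congr
  intro n _
  exact class_iff w n a ha

lemma cl_sum (w : ℕ) (Om : Finset ℕ) (f : ℕ → ℝ) :
    ∑ n ∈ Om, f n = ∑ a ∈ range (Mw w), ∑ n ∈ cl w Om a, f n := by
  classical
  rw [← Finset.sum_fiberwise_of_maps_to (s := Om) (t := range (Mw w)) (g := fun n => n % Mw w)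
    (fun n _ => mem_range.2 (Nat.mod_lt _ (Mw_pos w)))]
  apply sum_congr rfl
  intro a ha
  rw [cl_eq w Om a (mem_range.1 ha)]

/-- the pair sum for subsets of an interval -/
lemma Sg_le (Q : ℕ → ℕ → Prop) (K w y T : ℕ) (B : Finset ℕ) (hB : B ⊆ Icc 1 T) :
    Sg Q K w y B ≤ T * ∑ t ∈ Icc 1 T, (Fp Q K w y t - 1) := by
  classical
  have hg : ∀ t, 0 ≤ Fp Q K w y t - 1 := fun t => by
    have := Fp_ge Q K w y t
    linarith
  unfold Sg
  have h1 : ∑ x ∈ prs B, (Fp Q K w y (x.2 - x.1) - 1) =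
      ∑ z ∈ (prs B).image (fun x => (x.1, x.2 - x.1)), (Fp Q K w y z.2 - 1) := by
    rw [Finset.sum_image]
    intro x hx z hz hxz
    rw [Finset.mem_coe] at hx hz
    unfold prs at hx hz
    rw [mem_filter] at hx hz
    simp only [Prod.mk.injEq] at hxz
    ext
    · exact hxz.1
    · omega
  have h2 : (prs B).image (fun x => (x.1, x.2 - x.1)) ⊆ Icc 1 T ×ˢ Icc 1 T := by
    intro z hz
    rw [mem_image] at hz
    obtain ⟨x, hx, rfl⟩ := hz
    unfold prs at hx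
    rw [mem_filter, mem_product] at hx
    have h3 := mem_Icc.1 (hB hx.1.1)
    have h4 := mem_Icc.1 (hB hx.1.2)
    rw [mem_product, mem_Icc, mem_Icc]
    simp only
    omega
  rw [h1]
  refine (sum_le_sum_of_subset_of_nonneg h2 fun z _ _ => hg z.2).trans (le_of_eq ?_)
  rw [sum_product]
  simp only
  rw [sum_const, Nat.card_Icc, Nat.add_sub_cancel, nsmul_eq_mul]

/-- the choice of `w` -/
lemma choose_w (c A : ℕ) (v θ : ℝ) (hv : 0 < v) (hθ : 0 < θ) : ∃ w0 : ℕ, 2 ≤ w0 ∧ ∀ w : ℕ, w0 ≤ w →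
    (A : ℝ) / w ≤ min 1 (θ * (v / Real.log w ^ c) ^ 2) := by
  obtain ⟨w1, hw1, hlog⟩ := log_small (2 * c) (θ * v ^ 2 / (A + 1)) (by positivity)
  refine ⟨max w1 (A + 2), by omega, fun w hw => ?_⟩
  have hw2 : w1 ≤ w := by omega
  have hwA : A + 2 ≤ w := by omega
  have hw0 : (0 : ℝ) < w := by exact_mod_cast (by omega : 0 < w)
  have hl : 0 < Real.log w := Real.log_pos (by exact_mod_cast (by omega : 1 < w))
  apply le_min
  · rw [div_le_one hw0]
    exact_mod_cast (by omega : A ≤ w)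
  · have h1 := hlog w hw2
    have h2 : Real.log (w : ℝ) ^ (2 * c) * (A + 1) ≤ θ * v ^ 2 * w := by
      calc Real.log (w : ℝ) ^ (2 * c) * (A + 1) ≤ θ * v ^ 2 / (A + 1) * w * (A + 1) :=
            mul_le_mul_of_nonneg_right h1 (by positivity)
        _ = _ := by field_simp
    have h3 : 0 < Real.log (w : ℝ) ^ (2 * c) := by positivity
    rw [div_le_iff₀ hw0, div_pow, ← pow_mul, mul_comm c 2, ← mul_div_assoc, div_mul_eq_mul_div,
      le_div_iff₀ h3]
    nlinarith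

open Classical in
/-- **The Poisson law along a finite set.** -/
theorem law_gen (c : ℕ) (x0 ε : ℝ) (hx0 : 0 ≤ x0) (hε : 0 < ε) :
    ∃ (R w0 : ℕ) (δ : ℝ), 2 ≤ w0 ∧ 0 < δ ∧ ∀ w : ℕ, w0 ≤ w → ∀ M1 : ℝ, 0 ≤ M1 →
      ∃ (T0 : ℕ) (η' v0 ζ : ℝ), 0 < η' ∧ 0 < v0 ∧ 0 < ζ ∧
      ∀ (Om : Finset ℕ) (y T : ℕ) (Q : ℕ → ℕ → Prop), PerB Q c → (∀ p : ℕ, p.Prime → nuB Q p < p) →
      w ≤ y → (∀ a, ζ * Om.card ≤ (cl w Om a).card → FL (cl w Om a) w y (R * c) δ) →
      T0 ≤ T → T * Vq Q y ≤ x0 → Vq Q y ≤ v0 →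
      (∀ t ∈ Icc 1 T, ((((pz y).filter (fun p : ℕ => T < p ∧ CoG Q p t)).card : ℕ) : ℝ) ≤ η' * T) →
      ∀ (B : Finset ℕ) (β : ℝ), B ⊆ Icc 1 T → 0 ≤ β → β ≤ T → RegB Q w B β M1 →
      ∀ A : Finset ℕ, |((Om.filter (fun n => NB Q y B n ∈ A)).card : ℝ) -
        Om.card * Po (β * Vq Q y) A| ≤ ε * Om.card := by
  obtain ⟨R, w1, η3, δ, hw11, hη3, hδ, hcls⟩ := cls_law' c (x0 + 1) (ε / 2) (by linarith) (by positivity)
  obtain ⟨v, hv, hVlow⟩ := V_lower_unif c
  obtain ⟨K, hK⟩ : ∃ K : ℕ, K = (1 + 2 * (R * c)) ^ (R ^ 2) - 1 := ⟨_, rfl⟩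
  obtain ⟨θ, hθ⟩ : ∃ θ : ℝ, θ = η3 / (12 * (x0 + 1) ^ 2) := ⟨_, rfl⟩
  have hθ0 : 0 < θ := by rw [hθ]; positivity
  obtain ⟨w2, hw22, hcw⟩ := choose_w c (K * c ^ 2) v θ hv hθ0
  refine ⟨R, max w1 w2, δ, by omega, hδ, ?_⟩
  intro w hw M1 hM1
  have hwa : w1 ≤ w := by omega
  have hwb : w2 ≤ w := by omega
  obtain ⟨vl, hvl⟩ : ∃ vl : ℝ, vl = v / Real.log w ^ c := ⟨_, rfl⟩
  have hlw : 0 < Real.log w := Real.log_pos (by exact_mod_cast (by omega : 1 < w))
  have hvl0 : 0 < vl := by rw [hvl]; positivity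
  obtain ⟨η, hη⟩ : ∃ η : ℝ, η = min 1 (θ * vl ^ 2) := ⟨_, rfl⟩
  have hη0 : 0 < η := by rw [hη]; positivity
  have hη1 : η ≤ 1 := by rw [hη]; exact min_le_left _ _
  have hηθ : η ≤ θ * vl ^ 2 := by rw [hη]; exact min_le_right _ _
  obtain ⟨T0, hT0, havg⟩ := avg_sharp K (c ^ 2) w (by omega) η hη0 (by
    rw [hη, hvl]
    exact hcw w hwb)
  have hMw : (0 : ℝ) < Mw w := by exact_mod_cast Mw_pos w
  obtain ⟨u, hu⟩ : ∃ u : ℝ, u = min η3 (min 1 (ε / 8) / (M1 + 1)) := ⟨_, rfl⟩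
  have hu0 : 0 < u := by rw [hu]; positivity
  have hu1 : u ≤ η3 := by rw [hu]; exact min_le_left _ _
  have hu2 : M1 * u ≤ min 1 (ε / 8) := by
    have h1 : u ≤ min 1 (ε / 8) / (M1 + 1) := by rw [hu]; exact min_le_right _ _
    rw [le_div_iff₀ (by positivity)] at h1
    nlinarith
  refine ⟨T0, η / (K + 1), vl * u, ε / (4 * Mw w), by positivity, by positivity, by positivity, ?_⟩
  intro Om y T Q hQ hadm hwy hFL hT hTx hVv hlarge B β hB hβ0 hβT hreg A
  have hVw0 : 0 < Vq Q w := Vq_pos Q hadm w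
  have hVlw : vl ≤ Vq Q w := by rw [hvl]; exact hVlow Q hQ hadm w (by omega)
  have hsplit := Vq_split Q w y hwy
  have hVt0 := Vt_nonneg Q w y
  have hVtu : Vt Q w y ≤ u := by
    have h1 : Vq Q w * Vt Q w y ≤ vl * u := by rw [← hsplit]; exact hVv
    have h2 : vl * Vt Q w y ≤ vl * u := (mul_le_mul_of_nonneg_right hVlw hVt0).trans h1
    exact le_of_mul_le_mul_left h2 hvl0
  have hT0r : (0 : ℝ) ≤ T := Nat.cast_nonneg T
  -- the pair sum
  have hpair : ∑ t ∈ Icc 1 T, (Fp Q K w y t - 1) ≤ 12 * η * T := by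
    have h4 := havg T hT (CoG Q) (coll_gen Q c hQ w) y (η / (K + 1)) (by positivity) (by
      rw [← mul_div_assoc, div_le_iff₀ (by positivity)]
      have : (0 : ℝ) ≤ K := Nat.cast_nonneg K
      nlinarith) hlarge
    rw [sum_sub_distrib, sum_const, Nat.card_Icc, Nat.add_sub_cancel, nsmul_eq_mul, mul_one]
    have h5 := exp_bound η hη0.le hη1
    have h6 := mul_le_mul_of_nonneg_right h5 hT0r
    have h7 : ∑ t ∈ Icc 1 T, Fp Q K w y t ≤ Real.exp η * (Real.exp η + η) * T := h4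
    linarith
  have hTV : (T * Vt Q w y) ^ 2 * vl ^ 2 ≤ (x0 + 1) ^ 2 := by
    rw [← mul_pow]
    apply pow_le_pow_left₀ (by positivity)
    calc T * Vt Q w y * vl ≤ T * Vt Q w y * Vq Q w := mul_le_mul_of_nonneg_left hVlw (by positivity)
      _ = T * Vq Q y := by rw [hsplit]; ring
      _ ≤ x0 + 1 := by linarith
  have hSg : ∀ B' : Finset ℕ, B' ⊆ Icc 1 T → Vt Q w y ^ 2 * Sg Q K w y B' ≤ η3 := by
    intro B' hB'
    have h1 := Sg_le Q K w y T B' hB'
    have h2 : Sg Q K w y B' ≤ T * (12 * η * T) := h1.trans (mul_le_mul_of_nonneg_left hpair hT0r)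
    calc Vt Q w y ^ 2 * Sg Q K w y B' ≤ Vt Q w y ^ 2 * (T * (12 * η * T)) :=
          mul_le_mul_of_nonneg_left h2 (by positivity)
      _ = 12 * (T * Vt Q w y) ^ 2 * η := by ring
      _ ≤ 12 * (T * Vt Q w y) ^ 2 * (θ * vl ^ 2) := mul_le_mul_of_nonneg_left hηθ (by positivity)
      _ = 12 * θ * ((T * Vt Q w y) ^ 2 * vl ^ 2) := by ring
      _ ≤ 12 * θ * (x0 + 1) ^ 2 := mul_le_mul_of_nonneg_left hTV (by positivity)
      _ = η3 := by rw [hθ]; field_simp
  obtain ⟨x, hx⟩ : ∃ x, x = β * Vq Q y := ⟨_, rfl⟩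
  rw [← hx]
  have hVy0 := Vq_nonneg Q y
  have hx00 : 0 ≤ x := by rw [hx]; positivity
  have hxx0 : x ≤ x0 := by
    rw [hx]
    exact (mul_le_mul_of_nonneg_right hβT hVy0).trans hTx
  have hPo0 := Po_nonneg x hx00 A
  have hPo1 := Po_le_one x hx00 A
  -- the classes
  have hterm : ∀ a ∈ range (Mw w), |(((cl w Om a).filter (fun n => NB Q y B n ∈ A)).card : ℝ) -
      (cl w Om a).card * Po x A| ≤ 5 / 8 * ε * (cl w Om a).card + ε / (4 * Mw w) * Om.card := by
    intro a _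
    have hc0 : (0 : ℝ) ≤ (cl w Om a).card := Nat.cast_nonneg _
    have hO0 : (0 : ℝ) ≤ Om.card := Nat.cast_nonneg _
    rcases le_or_gt (ε / (4 * Mw w) * Om.card) ((cl w Om a).card : ℝ) with hbig | hsmall
    · have hxa : |(Ba Q w a B).card * Vt Q w y - x| ≤ min 1 (ε / 8) := by
        have h1 := hreg a
        have h2 : ((B.filter (fun h => Sf Q w (a + h))).card : ℝ) = (Ba Q w a B).card := rfl
        rw [h2] at h1
        have e : ((Ba Q w a B).card : ℝ) * Vt Q w y - x =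
            (((Ba Q w a B).card : ℝ) - β * Vq Q w) * Vt Q w y := by
          rw [hx, hsplit]
          ring
        rw [e, abs_mul, abs_of_nonneg hVt0]
        exact (mul_le_mul h1 hVtu hVt0 hM1).trans hu2
      have hxa1 := (abs_le.1 (hxa.trans (min_le_left _ _))).2
      have h3 := hcls w hwa Q y a B (cl w Om a) hQ hwy (by
          intro n hn
          unfold cl at hn
          rw [mem_filter] at hn
          exact hn.2) (hFL a hbig) (hVtu.trans hu1) (by linarith) (by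
          rw [← hK]
          exact hSg _ ((Ba_sub Q w a B).trans hB)) A
      have h4 := Po_diff ((Ba Q w a B).card * Vt Q w y) x (by positivity) hx00 A
      have h5 : |Po ((Ba Q w a B).card * Vt Q w y) A - Po x A| ≤ ε / 8 :=
        h4.trans (hxa.trans (min_le_right _ _))
      have h6 : |((cl w Om a).card : ℝ) * Po ((Ba Q w a B).card * Vt Q w y) A -
          (cl w Om a).card * Po x A| ≤ (cl w Om a).card * (ε / 8) := by
        rw [← mul_sub, abs_mul, abs_of_nonneg hc0]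
        exact mul_le_mul_of_nonneg_left h5 hc0
      have h7 := abs_sub_le (((cl w Om a).filter (fun n => NB Q y B n ∈ A)).card : ℝ)
        ((cl w Om a).card * Po ((Ba Q w a B).card * Vt Q w y) A) ((cl w Om a).card * Po x A)
      have h8 : 0 ≤ ε / (4 * Mw w) * Om.card := by positivity
      linarith
    · have h1 : (((cl w Om a).filter (fun n => NB Q y B n ∈ A)).card : ℝ) ≤ (cl w Om a).card := by
        exact_mod_cast card_filter_le _ _
      have h2 : (0 : ℝ) ≤ (((cl w Om a).filter (fun n => NB Q y B n ∈ A)).card : ℝ) := Nat.cast_nonneg _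
      have h3 : ((cl w Om a).card : ℝ) * Po x A ≤ (cl w Om a).card := by
        calc ((cl w Om a).card : ℝ) * Po x A ≤ (cl w Om a).card * 1 := mul_le_mul_of_nonneg_left hPo1 hc0
          _ = _ := mul_one _
      have h4 : 0 ≤ ((cl w Om a).card : ℝ) * Po x A := by positivity
      have h5 : 0 ≤ 5 / 8 * ε * ((cl w Om a).card : ℝ) := by positivity
      rw [abs_le]
      constructor <;> linarith
  have hsumc : (Om.card : ℝ) = ∑ a ∈ range (Mw w), ((cl w Om a).card : ℝ) := by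
    have := cl_sum w Om (fun _ => 1)
    simp only [sum_const, nsmul_eq_mul, mul_one] at this
    exact this
  have hsumf : ((Om.filter (fun n => NB Q y B n ∈ A)).card : ℝ) =
      ∑ a ∈ range (Mw w), (((cl w Om a).filter (fun n => NB Q y B n ∈ A)).card : ℝ) := by
    have := cl_sum w Om (fun n => if NB Q y B n ∈ A then 1 else 0)
    simp only [← Finset.sum_filter, sum_const, nsmul_eq_mul, mul_one] at this
    exact this
  rw [hsumf]
  have e1 : (Om.card : ℝ) * Po x A = ∑ a ∈ range (Mw w), ((cl w Om a).card : ℝ) * Po x A := by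
    rw [← sum_mul, ← hsumc]
  rw [e1, ← sum_sub_distrib]
  refine (abs_sum_le_sum_abs _ _).trans ((sum_le_sum hterm).trans ?_)
  rw [sum_add_distrib, ← mul_sum, ← hsumc, sum_const, card_range, nsmul_eq_mul]
  have e2 : (Mw w : ℝ) * (ε / (4 * Mw w) * Om.card) = ε / 4 * Om.card := by field_simp
  rw [e2]
  have hO0 : (0 : ℝ) ≤ Om.card := Nat.cast_nonneg _
  nlinarith

end Pool.Agent.Q263.PL
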