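import Pool.Agent.Q263.PL.Win
import Pool.Agent.TH464.PO.Poly

set_option autoImplicit false

/-!
# Systems of polynomials in the windows after the integers with restricted digits
-/

namespace Pool.Agent.Q263.PL

open Polynomial Finset Filter Pool.Agent.H373R2.T7 Pool.Agent.W123.RP Pool.Agent.W123.RU
  Pool.Agent.W123.RU.Poly Pool.Agent.TH464.PO
open Pool.Agent.Q236.ML
open Pool.Agent.Q263.MD (Dig)

variable {ι : Type} [Fintype ι]

/-- the windows of mean at least `κ` are long -/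
lemma long_window [Nonempty ι] (f : ι → ℤ[X]) (hf : Sys f) (κ : ℝ) (hκ : 0 < κ) (T0 : ℕ) :
    ∃ y₀ : ℕ, 3 ≤ y₀ ∧ ∀ y : ℕ, y₀ ≤ y → Vq (Q f) y ≤ κ ∧
      ∀ T : ℕ, κ ≤ T * Vq (Q f) y → T0 ≤ T := by
  obtain ⟨v, Cv, hv, hCv, hV⟩ := V_bounds f hf
  obtain ⟨y1, hy1⟩ : ∃ y1 : ℕ, Real.exp (max 1 (Cv * (T0 + 1) / κ)) ≤ y1 := exists_nat_ge _
  refine ⟨max 3 y1, le_max_left _ _, ?_⟩
  intro y hy
  have hy3 : 3 ≤ y := (le_max_left _ _).trans hy
  have hy1' : (y1 : ℝ) ≤ y := by exact_mod_cast (le_max_right _ _).trans hy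
  have hlog : max 1 (Cv * (T0 + 1) / κ) ≤ Real.log y := by
    have h2 := Real.log_le_log (Real.exp_pos _) (hy1.trans hy1')
    rwa [Real.log_exp] at h2
  have hlog1 : 1 ≤ Real.log y := (le_max_left _ _).trans hlog
  have hlog2 : Cv * (T0 + 1) / κ ≤ Real.log y := (le_max_right _ _).trans hlog
  have hlogk : Real.log y ≤ Real.log y ^ Fintype.card ι := by
    calc Real.log y = Real.log y ^ 1 := (pow_one _).symm
      _ ≤ Real.log y ^ Fintype.card ι := pow_le_pow_right₀ hlog1 Fintype.card_pos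
  have hVs : (T0 + 1) * Vq (Q f) y ≤ κ := by
    have h1 : ((T0 : ℝ) + 1) * Vq (Q f) y ≤ (T0 + 1) * (Cv / Real.log y ^ Fintype.card ι) :=
      mul_le_mul_of_nonneg_left (hV y hy3).2 (by positivity)
    refine h1.trans ?_
    rw [← mul_div_assoc, div_le_iff₀ (by positivity)]
    rw [div_le_iff₀ hκ] at hlog2
    calc ((T0 : ℝ) + 1) * Cv = Cv * (T0 + 1) := by ring
      _ ≤ Real.log y * κ := hlog2
      _ ≤ Real.log y ^ Fintype.card ι * κ := mul_le_mul_of_nonneg_right hlogk hκ.le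
      _ = _ := mul_comm _ _
  have hVq0 : 0 < Vq (Q f) y := Vq_pos (Q f) (fun p hp => Poly.adm f hf p hp) y
  refine ⟨?_, ?_⟩
  · have h1 : (0 : ℝ) ≤ T0 * Vq (Q f) y := by positivity
    linarith
  · intro T h1
    by_contra hlt
    rw [not_le] at hlt
    have h2 : (T : ℝ) * Vq (Q f) y < (T0 + 1) * Vq (Q f) y := by
      apply mul_lt_mul_of_pos_right _ hVq0
      have : (T : ℝ) < T0 := by exact_mod_cast hlt
      linarith
    linarith

open Classical in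
/-- **The Poisson law for systems of polynomials** in the windows after the integers with
restricted digits. -/
theorem poly_win {b : ℕ} (hb : 2 ≤ b) [Nonempty ι] (f : ι → ℤ[X]) (hf : Sys f) (hT : NoTr f)
    (x0 ε : ℝ) (hε : 0 < ε) :
    ∃ L y₀ k₀ : ℕ, 1 ≤ L ∧ ∀ k : ℕ, k₀ ≤ k → ∀ D : Fin k → Finset ℕ, (∀ i, ∀ d ∈ D i, d < b) →
      (∀ i, 2 ≤ (D i).card) → ∀ y : ℕ, y₀ ≤ y → y ^ L ≤ b ^ k → ∀ T : ℕ, T * Vq (Q f) y ≤ x0 →
      ∀ A : Finset ℕ, |(((Dig b k D).filter (fun n => Nw (Q f) y T n ∈ A)).card : ℝ) -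
          (Dig b k D).card * Po (T * Vq (Q f) y) A| ≤ ε * (Dig b k D).card := by
  obtain ⟨c, hc, hQ⟩ := exists_c f hf
  obtain ⟨L, k₀, T0, w, η', κ, hL, hη', hκ, hmain⟩ := law_win hb c x0 ε hε
  obtain ⟨T1, hT1⟩ := large_small f hf hT η' hη'
  obtain ⟨y₀, hy₀, hlong⟩ := long_window f hf κ hκ (max T0 T1)
  refine ⟨L, max y₀ w, k₀, hL, ?_⟩
  intro k hk D hD hD2 y hy hyL T hTx A
  obtain ⟨hVκ, hlong'⟩ := hlong y (by omega)
  refine hmain k hk D hD hD2 y (Q f) hyL hQ (fun p hp => Poly.adm f hf p hp) (by omega) hVκ ?_ T hTx A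
  intro T' h1 _
  have h2 := hlong' T' h1
  exact ⟨(le_max_left _ _).trans h2, fun t ht => hT1 T' ((le_max_right _ _).trans h2) y t ht⟩

/-- the windows -/
lemma Nw_eq (Q : ℕ → ℕ → Prop) (y T n : ℕ) (P : ℕ → Prop) [DecidablePred P]
    (h : ∀ m, Sf Q y m ↔ P m) : Nw Q y T n = ((Finset.Ioc n (n + T)).filter P).card := by
  classical
  unfold Nw
  apply Finset.card_bij (fun h _ => n + h)
  · intro a ha
    rw [mem_filter, mem_Icc] at ha
    rw [mem_filter, mem_Ioc]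
    exact ⟨by omega, (h _).1 ha.2⟩
  · intro a _ c _ hac
    omega
  · intro m hm
    rw [mem_filter, mem_Ioc] at hm
    refine ⟨m - n, ?_, by omega⟩
    rw [mem_filter, mem_Icc, show n + (m - n) = m by omega]
    exact ⟨by omega, (h _).2 hm.2⟩

end Pool.Agent.Q263.PL
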