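import Pool.Agent.Q263.PL.Dig

set_option autoImplicit false

/-!
# The Poisson law for all windows of bounded mean which follow the integers with restricted digits
-/

namespace Pool.Agent.Q263.PL

open Finset Filter Pool.Agent.H373R2.T7 Pool.Agent.W123.RP Pool.Agent.W123.RU Pool.Agent.TH464.PO
open Pool.Agent.Q236.CP Pool.Agent.Q236.ML
open Pool.Agent.Q263.MD (Dig)

lemma NB_Icc (Q : ℕ → ℕ → Prop) (y T n : ℕ) : NB Q y (Icc 1 T) n = Nw Q y T n := rfl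

lemma Nw_mono (Q : ℕ → ℕ → Prop) (y T T' n : ℕ) (h : T ≤ T') : Nw Q y T n ≤ Nw Q y T' n := by
  classical
  unfold Nw
  apply card_le_card
  intro m hm
  rw [mem_filter, mem_Icc] at hm ⊢
  exact ⟨⟨hm.1.1, by omega⟩, hm.2⟩

open Classical in
/-- **The Poisson law for the windows after the integers with restricted digits.** -/
theorem law_win {b : ℕ} (hb : 2 ≤ b) (c : ℕ) (x0 ε : ℝ) (hε : 0 < ε) :
    ∃ (L k₀ T0 w : ℕ) (η' κ : ℝ), 1 ≤ L ∧ 0 < η' ∧ 0 < κ ∧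
      ∀ k : ℕ, k₀ ≤ k → ∀ D : Fin k → Finset ℕ, (∀ i, ∀ d ∈ D i, d < b) → (∀ i, 2 ≤ (D i).card) →
      ∀ (y : ℕ) (Q : ℕ → ℕ → Prop), y ^ L ≤ b ^ k → PerB Q c → (∀ p : ℕ, p.Prime → nuB Q p < p) →
      w ≤ y → Vq Q y ≤ κ →
      (∀ T : ℕ, κ ≤ T * Vq Q y → T * Vq Q y ≤ max x0 1 → T0 ≤ T ∧ ∀ t ∈ Icc 1 T,
        ((((pz y).filter (fun p : ℕ => T < p ∧ CoG Q p t)).card : ℕ) : ℝ) ≤ η' * T) →
      ∀ T : ℕ, T * Vq Q y ≤ x0 → ∀ A : Finset ℕ,
        |(((Dig b k D).filter (fun n => Nw Q y T n ∈ A)).card : ℝ) -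
          (Dig b k D).card * Po (T * Vq Q y) A| ≤ ε * (Dig b k D).card := by
  obtain ⟨w, hw2, hlaw⟩ := law_dig hb c (max x0 1) (ε / 4) (by positivity) (by positivity)
  obtain ⟨L, k₀, T0, η', v0, hL, hη', hv0, hmain⟩ := hlaw w le_rfl (Mw w) (Nat.cast_nonneg _)
  obtain ⟨κ, hκ⟩ : ∃ κ, κ = min v0 (min (ε / 8) (1 / 2)) := ⟨_, rfl⟩
  have hκ0 : 0 < κ := by rw [hκ]; positivity
  have hκv : κ ≤ v0 := by rw [hκ]; exact min_le_left _ _
  have hκ1 : κ ≤ ε / 8 := by rw [hκ]; exact (min_le_right _ _).trans (min_le_left _ _)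
  have hκ2 : κ ≤ 1 / 2 := by rw [hκ]; exact (min_le_right _ _).trans (min_le_right _ _)
  refine ⟨L, k₀, T0, w, η', κ, hL, hη', hκ0, ?_⟩
  intro k hk D hD hD2 y Q hyL hQ hadm hwy hVκ hT T hTx A
  have hV0 : 0 < Vq Q y := Vq_pos Q hadm y
  have hbig : ∀ T : ℕ, κ ≤ T * Vq Q y → T * Vq Q y ≤ max x0 1 → ∀ A : Finset ℕ,
      |(((Dig b k D).filter (fun n => Nw Q y T n ∈ A)).card : ℝ) -
        (Dig b k D).card * Po (T * Vq Q y) A| ≤ ε / 4 * (Dig b k D).card := by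
    intro T h1 h2 A
    obtain ⟨hT0, hlarge⟩ := hT T h1 h2
    exact hmain k hk D hD hD2 y T Q hyL hQ hadm hwy hT0 h2 (hVκ.trans hκv) hlarge (Icc 1 T) T
      (Subset.refl _) (Nat.cast_nonneg _) le_rfl (fun m => window Q c hQ w m T) A
  have hS0 : (0 : ℝ) ≤ (Dig b k D).card := Nat.cast_nonneg _
  by_cases hκT : κ ≤ T * Vq Q y
  · refine (hbig T hκT (hTx.trans (le_max_left _ _)) A).trans ?_
    nlinarith
  · rw [not_le] at hκT
    obtain ⟨T', h1, h2, h3⟩ := exists_window (Vq Q y) κ hV0 hVκ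
    have h4 := hbig T' h1 (h2.trans ((by linarith : 2 * κ ≤ 1).trans (le_max_right _ _))) {0}
    unfold Po at h4 ⊢
    have h5 := extend (Dig b k D) (fun n => Nw Q y T n) (fun n => Nw Q y T' n)
      (fun n => Nw_mono Q y T T' n (h3 T hκT)) (T * Vq Q y) (T' * Vq Q y) (ε / 4)
      (by positivity) (by linarith) h4 A
    refine h5.trans ?_
    nlinarith

end Pool.Agent.Q263.PL
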