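import Pool.Agent.Q236.ML.Mixed

set_option autoImplicit false

/-!
# The Poisson law along a finite set of integers, in one class modulo the small primes

The input is a fundamental lemma of the sieve for the elements of the set in the class.
-/

namespace Pool.Agent.Q263.PL

open Finset Filter Pool.Agent.H373R2.T7 Pool.Agent.W123.RP Pool.Agent.W123.RU Pool.Agent.TH464.PO
open Pool.Agent.Q236.CP Pool.Agent.Q236.ML

open Classical in
/-- the elements of `Om` which avoid the conditions `Q` at the primes in `(w, y]` -/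
noncomputable def St (Q : ℕ → ℕ → Prop) (w y : ℕ) (Om : Finset ℕ) : Finset ℕ :=
  Om.filter (fun n => ∀ p ∈ pz y, w < p → ¬ Q p n)

/-- the fundamental lemma for the set `Om` and the primes in `(w, y]` -/
def FL (Om : Finset ℕ) (w y κ : ℕ) (δ : ℝ) : Prop :=
  ∀ Q : ℕ → ℕ → Prop, (∀ p n, Q p n ↔ Q p (n % p)) → (∀ p, p.Prime → w < p → nuB Q p ≤ κ) →
    |((St Q w y Om).card : ℝ) - Om.card * Vt Q w y| ≤ δ * (Om.card * Vt Q w y)

open Classical in
/-- the binomial moments in a class -/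
lemma moment_cls' (Q : ℕ → ℕ → Prop) (c : ℕ) (hQ : PerB Q c) (w y a k : ℕ) (B : Finset ℕ) (hwy : w ≤ y)
    (Om : Finset ℕ) (hOm : ∀ n ∈ Om, ∀ p ∈ pz w, n % p = a % p) :
    ∑ n ∈ Om, ((NB Q y B n).choose k : ℝ) =
      ∑ J ∈ powersetCard k (Ba Q w a B), ((St (QH Q J) w y Om).card : ℝ) := by
  have h1 : ∀ J ∈ powersetCard k (Ba Q w a B), ((St (QH Q J) w y Om).card : ℝ) =
      ∑ n ∈ Om, if (∀ p ∈ pz y, w < p → ¬ QH Q J p n) then (1 : ℝ) else 0 := by
    intro J _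
    unfold St
    rw [Finset.sum_ite, Finset.sum_const_zero, add_zero, Finset.sum_const, nsmul_eq_mul, mul_one]
  rw [Finset.sum_congr rfl h1, Finset.sum_comm]
  apply Finset.sum_congr rfl
  intro n hn
  have hn2 := hOm n hn
  rw [Finset.sum_ite, Finset.sum_const_zero, add_zero, Finset.sum_const, nsmul_eq_mul, mul_one]
  unfold NB
  rw [← Finset.card_powersetCard]
  congr 2
  ext J
  rw [mem_filter, mem_powersetCard, mem_powersetCard]
  unfold Ba
  constructor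
  · rintro ⟨a1, a2⟩
    refine ⟨⟨fun b hb => ?_, a2⟩, ?_⟩
    · have h3 := mem_filter.1 (a1 hb)
      rw [mem_filter]
      refine ⟨h3.1, ?_⟩
      rw [← sf_class Q c hQ w n a b hn2]
      exact ((sf_split Q w y (n + b) hwy).1 h3.2).1
    · rintro p hp hw ⟨b, hb, hq⟩
      have h3 := mem_filter.1 (a1 hb)
      exact h3.2 p hp hq
  · rintro ⟨⟨a1, a2⟩, a3⟩
    refine ⟨fun b hb => ?_, a2⟩
    have h3 := mem_filter.1 (a1 hb)
    rw [mem_filter]
    refine ⟨h3.1, ?_⟩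
    rw [sf_split Q w y (n + b) hwy]
    refine ⟨(sf_class Q c hQ w n a b hn2).2 h3.2, ?_⟩
    intro p hp hw hq
    exact a3 p hp hw ⟨b, hb, hq⟩

open Classical in
/-- **The Poisson law in one class** modulo the small primes, along a finite set. -/
theorem cls_law' (c : ℕ) (Λ ε : ℝ) (hΛ : 0 ≤ Λ) (hε : 0 < ε) :
    ∃ (R w0 : ℕ) (η3 δ : ℝ), 1 ≤ w0 ∧ 0 < η3 ∧ 0 < δ ∧ ∀ w : ℕ, w0 ≤ w →
      ∀ (Q : ℕ → ℕ → Prop) (y a : ℕ) (B Om : Finset ℕ), PerB Q c → w ≤ y →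
      (∀ n ∈ Om, ∀ p ∈ pz w, n % p = a % p) → FL Om w y (R * c) δ →
      Vt Q w y ≤ η3 → (Ba Q w a B).card * Vt Q w y ≤ Λ →
      Vt Q w y ^ 2 * Sg Q ((1 + 2 * (R * c)) ^ (R ^ 2) - 1) w y (Ba Q w a B) ≤ η3 →
      ∀ A : Finset ℕ, |((Om.filter (fun n => NB Q y B n ∈ A)).card : ℝ) -
        Om.card * Po ((Ba Q w a B).card * Vt Q w y) A| ≤ ε * Om.card := by
  obtain ⟨R, η0, hη0, htv⟩ := law_tv Λ ε hΛ hε
  obtain ⟨G, hG⟩ : ∃ G : ℝ, G = (1 + Λ) ^ R := ⟨_, rfl⟩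
  have hG1 : 1 ≤ G := by rw [hG]; exact one_le_pow₀ (by linarith)
  obtain ⟨δ, hδ⟩ : ∃ δ : ℝ, δ = min (η0 / (4 * (G + 1))) 1 := ⟨_, rfl⟩
  have hδ0 : 0 < δ := by rw [hδ]; positivity
  have hδ1 : δ ≤ 1 := by rw [hδ]; exact min_le_right _ _
  have hδG : δ * (G + 1) ≤ η0 / 4 := by
    have : δ ≤ η0 / (4 * (G + 1)) := by rw [hδ]; exact min_le_left _ _
    rw [le_div_iff₀ (by positivity)] at this
    linarith
  have hδη : δ ≤ η0 / 4 := by nlinarith
  obtain ⟨m, hm⟩ := exists_nat_ge (3 * G * ((R * c : ℕ) : ℝ) ^ 2 / δ)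
  obtain ⟨η3, hη3⟩ : ∃ η3 : ℝ, η3 = δ / (3 * G * (R ^ 2 + 1)) := ⟨_, rfl⟩
  have hη30 : 0 < η3 := by rw [hη3]; positivity
  have hη3G : 3 * (G * ((R ^ 2 + 1) * η3)) = δ := by rw [hη3]; field_simp
  refine ⟨R, max (max 1 m) (2 * (R * c)), η3, δ, by omega, hη30, hδ0, ?_⟩
  intro w hw
  have hw1 : 1 ≤ w := by omega
  have hwm : m ≤ w := by omega
  have hwR : 2 * (R * c) ≤ w := by omega
  have hw0 : (0 : ℝ) < w := by exact_mod_cast hw1
  have hwr : 3 * (G * (((R * c : ℕ) : ℝ) ^ 2 / w)) ≤ δ := by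
    have h1 : 3 * G * ((R * c : ℕ) : ℝ) ^ 2 / δ ≤ w := hm.trans (by exact_mod_cast hwm)
    rw [div_le_iff₀ hδ0] at h1
    rw [← mul_div_assoc, ← mul_div_assoc, div_le_iff₀ hw0]
    linarith
  intro Q y a B Om hQ hwy hOm hFL hVt hlam hS
  obtain ⟨x, hx⟩ : ∃ x, x = (Ba Q w a B).card * Vt Q w y := ⟨_, rfl⟩
  rw [← hx] at hlam
  rw [← hx]
  have hVt0 := Vt_nonneg Q w y
  have hx0 : 0 ≤ x := by rw [hx]; positivity
  obtain ⟨N, hN⟩ : ∃ N : ℝ, N = Om.card := ⟨_, rfl⟩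
  have hN0 : 0 ≤ N := by rw [hN]; positivity
  -- the sums over the sets of shifts
  have hT : ∀ k ≤ R, |∑ J ∈ powersetCard k (Ba Q w a B), Vt (QH Q J) w y - x ^ k / k.factorial| ≤ δ := by
    intro k hk
    have h1 := sing_cls Q c hQ w y k R hk hw1 hwR (Ba Q w a B)
    rw [← hx] at h1
    refine h1.trans ?_
    have h2 : (1 + x) ^ R ≤ G := by
      rw [hG]
      exact pow_le_pow_left₀ (by linarith) (by linarith) R
    have h3 : ((R * c : ℕ) : ℝ) ^ 2 / w + R ^ 2 * Vt Q w y + Vt Q w y ^ 2 *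
        ∑ x ∈ prs (Ba Q w a B), (Fp Q ((1 + 2 * (R * c)) ^ (R ^ 2) - 1) w y (x.2 - x.1) - 1) ≤
        ((R * c : ℕ) : ℝ) ^ 2 / w + (R ^ 2 + 1) * η3 := by
      have h4 : (R : ℝ) ^ 2 * Vt Q w y ≤ R ^ 2 * η3 := mul_le_mul_of_nonneg_left hVt (by positivity)
      unfold Sg at hS
      linarith
    have h5 : 0 ≤ ((R * c : ℕ) : ℝ) ^ 2 / w + (R ^ 2 + 1) * η3 := by positivity
    calc _ ≤ (1 + x) ^ R * (((R * c : ℕ) : ℝ) ^ 2 / w + (R ^ 2 + 1) * η3) :=
          mul_le_mul_of_nonneg_left h3 (by positivity)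
      _ ≤ G * (((R * c : ℕ) : ℝ) ^ 2 / w + (R ^ 2 + 1) * η3) := mul_le_mul_of_nonneg_right h2 h5
      _ ≤ δ := by linarith
  unfold Po
  rw [← hN]
  have key := htv Om (NB Q y B) x hx0 hlam (by
    intro k hk
    rw [moment_cls' Q c hQ w y a k B hwy Om hOm]
    have h1 : |∑ J ∈ powersetCard k (Ba Q w a B), ((St (QH Q J) w y Om).card : ℝ) -
        N * ∑ J ∈ powersetCard k (Ba Q w a B), Vt (QH Q J) w y| ≤
        δ * (N * ∑ J ∈ powersetCard k (Ba Q w a B), Vt (QH Q J) w y) := by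
      rw [mul_sum, mul_sum, ← Finset.sum_sub_distrib]
      refine (Finset.abs_sum_le_sum_abs _ _).trans (Finset.sum_le_sum fun J hJ => ?_)
      rw [mem_powersetCard] at hJ
      have hper := perB_QH Q c hQ J
      rw [hN]
      exact hFL (QH Q J) hper.per (fun p hp _ => (hper.few p hp).trans (by
        rw [hJ.2]
        exact Nat.mul_le_mul_right _ hk))
    obtain ⟨T, hTT⟩ : ∃ T, T = ∑ J ∈ powersetCard k (Ba Q w a B), Vt (QH Q J) w y := ⟨_, rfl⟩
    have h2 := hT k hk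
    rw [← hTT] at h1 h2
    have hP : x ^ k / k.factorial ≤ G := by
      have hfac : (1 : ℝ) ≤ k.factorial := by exact_mod_cast Nat.factorial_pos k
      calc x ^ k / k.factorial ≤ x ^ k := div_le_self (by positivity) hfac
        _ ≤ (1 + Λ) ^ k := pow_le_pow_left₀ hx0 (by linarith) k
        _ ≤ (1 + Λ) ^ R := pow_le_pow_right₀ (by linarith) hk
        _ = G := hG.symm
    have hTG : T ≤ G + 1 := by
      have := (abs_le.1 h2).2
      linarith
    have h3 : |N * T - N * (x ^ k / k.factorial)| ≤ N * δ := by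
      rw [← mul_sub, abs_mul, abs_of_nonneg hN0]
      exact mul_le_mul_of_nonneg_left h2 hN0
    have h4 := abs_sub_le (∑ J ∈ powersetCard k (Ba Q w a B), ((St (QH Q J) w y Om).card : ℝ))
      (N * T) (N * (x ^ k / k.factorial))
    rw [← hN]
    have h5 : δ * (N * T) ≤ N * (η0 / 4) := by
      calc δ * (N * T) ≤ δ * (N * (G + 1)) := by
            apply mul_le_mul_of_nonneg_left _ hδ0.le
            exact mul_le_mul_of_nonneg_left hTG hN0
        _ = N * (δ * (G + 1)) := by ring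
        _ ≤ _ := mul_le_mul_of_nonneg_left hδG hN0
    have h6 : N * δ ≤ N * (η0 / 4) := mul_le_mul_of_nonneg_left hδη hN0
    have h7 : 0 ≤ N * η0 := by positivity
    linarith)
  intro A
  have h := key A
  rw [← hN] at h
  exact h

end Pool.Agent.Q263.PL
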