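import Pool.Agent.Q263.PL.Law
import Pool.Agent.Q263.SW.Fin

set_option autoImplicit false

/-!
# The Poisson law along the integers with restricted digits
-/

namespace Pool.Agent.Q263.PL

open Finset Filter Pool.Agent.H373R2.T7 Pool.Agent.W123.RP Pool.Agent.W123.RU Pool.Agent.TH464.PO
open Pool.Agent.Q236.CP Pool.Agent.Q236.ML
open Pool.Agent.Q263.MD (Dig)
open Pool.Agent.Q263.SV (Pr mem_Pr)
open Pool.Agent.Q263.SW (Sr)

open Classical in
/-- **The Poisson law along the integers with restricted digits.** -/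
theorem law_dig {b : ℕ} (hb : 2 ≤ b) (c : ℕ) (x0 ε : ℝ) (hx0 : 0 ≤ x0) (hε : 0 < ε) :
    ∃ w0 : ℕ, 2 ≤ w0 ∧ ∀ w : ℕ, w0 ≤ w → ∀ M1 : ℝ, 0 ≤ M1 →
      ∃ (L k₀ T0 : ℕ) (η' v0 : ℝ), 1 ≤ L ∧ 0 < η' ∧ 0 < v0 ∧
      ∀ k : ℕ, k₀ ≤ k → ∀ D : Fin k → Finset ℕ, (∀ i, ∀ d ∈ D i, d < b) → (∀ i, 2 ≤ (D i).card) →
      ∀ (y T : ℕ) (Q : ℕ → ℕ → Prop), y ^ L ≤ b ^ k → PerB Q c → (∀ p : ℕ, p.Prime → nuB Q p < p) →
      w ≤ y → T0 ≤ T → T * Vq Q y ≤ x0 → Vq Q y ≤ v0 →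
      (∀ t ∈ Icc 1 T, ((((pz y).filter (fun p : ℕ => T < p ∧ CoG Q p t)).card : ℕ) : ℝ) ≤ η' * T) →
      ∀ (B : Finset ℕ) (β : ℝ), B ⊆ Icc 1 T → 0 ≤ β → β ≤ T → RegB Q w B β M1 →
      ∀ A : Finset ℕ, |(((Dig b k D).filter (fun n => NB Q y B n ∈ A)).card : ℝ) -
        (Dig b k D).card * Po (β * Vq Q y) A| ≤ ε * (Dig b k D).card := by
  obtain ⟨R, w1, δ, hw12, hδ, hlaw⟩ := law_gen c x0 ε hx0 hε
  obtain ⟨K₀, L, hL, hs⟩ := Pool.Agent.Q263.SW.sieve hb (R * c) δ hδ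
  refine ⟨max w1 K₀, by omega, ?_⟩
  intro w hw M1 hM1
  obtain ⟨T0, η', v0, ζ, hη', hv0, hζ, hlaw'⟩ := hlaw w (by omega) M1 hM1
  obtain ⟨k₀, hk₀⟩ := hs w (by omega) (Mw w) (Mw_pos w) (by
    intro p hp hpq
    unfold Mw at hpq
    rw [hp.prime.dvd_finsetProd_iff] at hpq
    obtain ⟨a, ha, hpa⟩ := hpq
    rw [(Nat.prime_dvd_prime_iff_eq hp (mem_pz.1 ha).2).1 hpa]
    exact (mem_pz.1 ha).1) ζ hζ
  refine ⟨L, k₀, T0, η', v0, hL, hη', hv0, ?_⟩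
  intro k hk D hD hD2 y T Q hyL hQ hadm hwy hT hTx hVv hlarge B β hB hβ0 hβT hreg A
  refine hlaw' (Dig b k D) y T Q hQ hadm hwy ?_ hT hTx hVv hlarge B β hB hβ0 hβT hreg A
  intro a ha
  have hcl : cl w (Dig b k D) a = Sr b k D (Mw w) a := by
    unfold Sr
    rw [← cl_eq w (Dig b k D) (a % Mw w) (Nat.mod_lt _ (Mw_pos w))]
    unfold cl
    apply filter_congr
    intro n _
    apply forall_congr'
    intro p
    apply imp_congr_right
    intro hp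
    have hd : p ∣ Mw w := Finset.dvd_prod_of_mem _ hp
    rw [Nat.mod_mod_of_dvd a hd]
  rw [hcl] at ha ⊢
  intro Q' hper hfew
  have h := hk₀ k hk D hD hD2 y hyL a ha (fun p => (range p).filter (fun r => Q' p r)) (by
    intro p hp hwp _
    refine ⟨fun r hr => by rw [mem_filter, mem_range] at hr; exact hr.1, ?_⟩
    have := hfew p hp hwp
    unfold nuB at this
    convert this)
  have hPr : Pr w y = (pz y).filter (fun p => w < p) := by
    ext p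
    rw [mem_Pr, mem_filter, mem_pz]
    tauto
  have e1 : ∏ p ∈ Pr w y, (1 - ((((range p).filter (fun r => Q' p r)).card : ℕ) : ℝ) / p) = Vt Q' w y := by
    unfold Vt nuB
    rw [hPr]
  have e2 : (Sr b k D (Mw w) a).filter (fun m => ∀ p ∈ Pr w y, m % p ∉ (range p).filter (fun r => Q' p r)) =
      St Q' w y (Sr b k D (Mw w) a) := by
    unfold St
    apply filter_congr
    intro m _
    rw [hPr]
    constructor
    · intro h p hp hwp hq
      have hpp := (mem_pz.1 hp).2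
      exact h p (mem_filter.2 ⟨hp, hwp⟩) (mem_filter.2 ⟨mem_range.2 (Nat.mod_lt _ hpp.pos),
        (hper p m).1 hq⟩)
    · intro h p hp hq
      rw [mem_filter] at hp hq
      exact h p hp.1 hp.2 ((hper p m).2 hq.2)
  rw [e1, e2] at h
  exact h

end Pool.Agent.Q263.PL
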